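import Pool.Agent.Helper81.PW.Com

set_option autoImplicit false

namespace Pool.Agent.Helper95.PW

open MeasureTheory Filter

theorem inn_ball {C2 C3 X κ R N : ℝ} (hC2 : 0 < C2) (hC3 : 0 < C3) (hX : 0 < X) (hR : 0 < R)
    (hκ0 : 0 ≤ κ) (hκ : κ ≤ C3 * X)
    (hN : N ≤ C2 * (1 + (κ * (2 * R) ^ 2) ^ (3 / 5 : ℝ))) :
    N ≤ C2 * (1 + (4 * C3) ^ (3 / 5 : ℝ)) * (1 + (X * R ^ 2) ^ (3 / 5 : ℝ)) := by
  have h1 : (κ * (2 * R) ^ 2) ^ (3 / 5 : ℝ) ≤ ((4 * C3) * (X * R ^ 2)) ^ (3 / 5 : ℝ) := by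
    apply Real.rpow_le_rpow (by positivity) _ (by norm_num)
    have : κ * (2 * R) ^ 2 ≤ (C3 * X) * (2 * R) ^ 2 :=
      mul_le_mul_of_nonneg_right hκ (by positivity)
    calc κ * (2 * R) ^ 2 ≤ (C3 * X) * (2 * R) ^ 2 := this
      _ = (4 * C3) * (X * R ^ 2) := by ring
  have h1' := Real.mul_rpow (x := 4 * C3) (y := X * R ^ 2) (z := (3 / 5 : ℝ)) (by positivity)
    (by positivity)
  rw [h1'] at h1
  have h2 : 0 ≤ (4 * C3) ^ (3 / 5 : ℝ) := by positivity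
  have h3 : 0 ≤ (X * R ^ 2) ^ (3 / 5 : ℝ) := by positivity
  calc N ≤ C2 * (1 + (κ * (2 * R) ^ 2) ^ (3 / 5 : ℝ)) := hN
    _ ≤ C2 * (1 + (4 * C3) ^ (3 / 5 : ℝ) * (X * R ^ 2) ^ (3 / 5 : ℝ)) := by gcongr
    _ ≤ C2 * ((1 + (4 * C3) ^ (3 / 5 : ℝ)) * (1 + (X * R ^ 2) ^ (3 / 5 : ℝ))) := by
        apply mul_le_mul_of_nonneg_left _ hC2.le
        nlinarith [mul_nonneg h2 h3]
    _ = _ := by ring

theorem st_INN (h1 : ST_INL) (h2 : ST_NR) (h3 : ST_TUP) (h4 : ST_APX) (h5 : ST_LMT)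
    (h6 : ST_CUT) (h7 : ST_QH) (h8 : ST_INT) : ST_INN := by
  obtain ⟨C1, hC1, H1⟩ := h1
  obtain ⟨C2, hC2, H2⟩ := h2
  obtain ⟨C3, hC3, H3⟩ := h3
  obtain ⟨K, hK, H6, _⟩ := h6
  have hK0 : 0 < K := by linarith
  obtain ⟨C4, hC4⟩ : ∃ C4 : ℝ, C4 = C2 * (1 + (4 * C3) ^ (3 / 5 : ℝ)) := ⟨_, rfl⟩
  have hC4pos : 0 < C4 := by rw [hC4]; positivity
  refine ⟨C1 * K ^ 4 * (C4 * (3 * C3 + C4)), by positivity, ?_⟩
  intro n E φ G m R ν hn hG hE hR hν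
  obtain ⟨u, hu⟩ := h4 n E φ G hG
  obtain ⟨l1, l2, l3⟩ := h5 n E φ G u hG hu
  obtain ⟨hsm, _, _, ⟨M0, hM0⟩, hres⟩ := hu
  have hn0 : (1:ℝ) ≤ n := by exact_mod_cast hn
  have hnp : (0:ℝ) < n := by linarith
  obtain ⟨X, hX⟩ : ∃ X : ℝ, X = (n:ℝ) ^ (7 / 3 : ℝ) := ⟨_, rfl⟩
  have hXpos : 0 < X := by rw [hX]; positivity
  obtain ⟨Y, hY⟩ : ∃ Y : ℝ, Y = (n:ℝ) ^ (13 / 3 : ℝ) := ⟨_, rfl⟩
  have hYpos : 0 < Y := by rw [hY]; positivity
  have hXY : (n:ℝ) ^ 2 * X = Y := by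
    rw [hX, hY, ← Real.rpow_natCast (n:ℝ) 2, ← Real.rpow_add hnp]
    norm_num
  rw [← hX] at hν
  rw [← hX, ← hY]
  have hνpos : 0 < ν := by
    rw [hν]
    positivity
  obtain ⟨C', hC', HI⟩ := H1 n n E (fun m => gm m R) K R (C3 * X + |M0|) hG.low hnp.le hK
    (fun m => (H6 m R hR).1) hR (fun m y hy => (H6 m R hR).2.1 y hy.le)
    (fun m y hy => (H6 m R hR).2.2 y hy.le)
  have hev : ∀ᶠ j in atTop, sq (fun s => Pg (gm m R) (u j s)) ^ 2 ≤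
      C1 * K ^ 4 * (C4 * (3 * C3 + C4)) * (ν * (X / R ^ 2 + ν / R ^ 4 + Y)) +
        C' * Real.sqrt (res n E (u j)) := by
    have e1 : ∀ᶠ j in atTop, sq (u j) ≤ 2 :=
      l1.eventually_le_const (by norm_num : (1:ℝ) < 2)
    have e2 : ∀ᶠ j in atTop, res n E (u j) ≤ 1 / 2 :=
      hres.eventually_le_const (by norm_num : (0:ℝ) < 1 / 2)
    filter_upwards [e1, e2] with j hj1 hj2
    have hQ := com_Q_le_one h7 h8 n E (u j) (hsm j).1 hE hj1 hj2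
    obtain ⟨t1, t2, t3⟩ := H3 n (u j) hn (hsm j).1 (hsm j).2 hj1 hQ
    rw [← hX] at t1 t2 t3
    have p1 := com_kin_nonneg (u j)
    have p2 := com_pair_nonneg (u j)
    have p3 : 0 ≤ one (fun y => 1 / nr y) (u j) :=
      com_one_nonneg _ (fun y => div_nonneg zero_le_one (com_nr_nonneg y)) _
    have p4 : 0 ≤ one (ball (2 * R)) (u j) := com_one_nonneg _ (com_ball_nonneg _) _
    have hN := inn_ball hC2 hC3 hXpos hR p1 t1
      (H2 n (u j) (hsm j).1 (hsm j).2 hj1 (2 * R) (by positivity))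
    rw [← hC4, ← hν] at hN
    have q1 : one (fun y => 1 / nr y) (u j) ≤ C3 * X := by
      have : 1 * one (fun y => 1 / nr y) (u j) ≤ n * one (fun y => 1 / nr y) (u j) :=
        mul_le_mul_of_nonneg_right hn0 p3
      linarith
    have hM := le_abs_self M0
    have hM1 := abs_nonneg M0
    have hM2 := hM0 j
    have hb := HI (u j) (hsm j).1 (hsm j).2 hj1 (by linarith) (by linarith) (by linarith)
      (by nlinarith [mul_pos hC3 hXpos]) (by linarith) m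
    refine hb.trans ?_
    apply add_le_add _ le_rfl
    have hbr : (kin (u j) + pair (u j) + n * one (fun y => 1 / nr y) (u j)) / R ^ 2 +
        one (ball (2 * R)) (u j) / R ^ 4 + (n:ℝ) ^ 2 * kin (u j) ≤
        (3 * C3 + C4) * (X / R ^ 2 + ν / R ^ 4 + Y) := by
      have b1 : (kin (u j) + pair (u j) + n * one (fun y => 1 / nr y) (u j)) / R ^ 2 ≤
          (3 * C3 * X) / R ^ 2 := by
        apply div_le_div_of_nonneg_right _ (by positivity)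
        linarith
      have b2 : one (ball (2 * R)) (u j) / R ^ 4 ≤ (C4 * ν) / R ^ 4 :=
        div_le_div_of_nonneg_right hN (by positivity)
      have b3 : (n:ℝ) ^ 2 * kin (u j) ≤ C3 * Y := by
        calc (n:ℝ) ^ 2 * kin (u j) ≤ (n:ℝ) ^ 2 * (C3 * X) :=
              mul_le_mul_of_nonneg_left t1 (by positivity)
          _ = C3 * ((n:ℝ) ^ 2 * X) := by ring
          _ = C3 * Y := by rw [hXY]
      have c1 : 0 ≤ X / R ^ 2 := by positivity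
      have c2 : 0 ≤ ν / R ^ 4 := by positivity
      have d1 : (3 * C3 * X) / R ^ 2 = 3 * C3 * (X / R ^ 2) := by ring
      have d2 : (C4 * ν) / R ^ 4 = C4 * (ν / R ^ 4) := by ring
      rw [d1] at b1
      rw [d2] at b2
      nlinarith [mul_nonneg hC4pos.le c1, mul_nonneg hC3.le c2, mul_nonneg hC3.le hYpos.le,
        mul_nonneg hC4pos.le hYpos.le]
    have hbr0 : 0 ≤ (kin (u j) + pair (u j) + n * one (fun y => 1 / nr y) (u j)) / R ^ 2 +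
        one (ball (2 * R)) (u j) / R ^ 4 + (n:ℝ) ^ 2 * kin (u j) := by positivity
    calc C1 * K ^ 4 * (one (ball (2 * R)) (u j) *
          ((kin (u j) + pair (u j) + n * one (fun y => 1 / nr y) (u j)) / R ^ 2 +
            one (ball (2 * R)) (u j) / R ^ 4 + (n:ℝ) ^ 2 * kin (u j)))
        ≤ C1 * K ^ 4 * ((C4 * ν) * ((3 * C3 + C4) * (X / R ^ 2 + ν / R ^ 4 + Y))) := by
          apply mul_le_mul_of_nonneg_left _ (by positivity)
          exact mul_le_mul hN hbr hbr0 (by positivity)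
      _ = C1 * K ^ 4 * (C4 * (3 * C3 + C4)) * (ν * (X / R ^ 2 + ν / R ^ 4 + Y)) := by ring
  have lim1 : Tendsto (fun j => sq (fun s => Pg (gm m R) (u j s)) ^ 2) atTop
      (nhds (sq (PG (gm m R) φ G) ^ 2)) :=
    (l3 _ (H6 m R hR).1.sm (H6 m R hR).1.cs).pow 2
  have lim2 : Tendsto (fun j => C1 * K ^ 4 * (C4 * (3 * C3 + C4)) *
      (ν * (X / R ^ 2 + ν / R ^ 4 + Y)) + C' * Real.sqrt (res n E (u j))) atTop
      (nhds (C1 * K ^ 4 * (C4 * (3 * C3 + C4)) * (ν * (X / R ^ 2 + ν / R ^ 4 + Y)) +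
        C' * Real.sqrt 0)) :=
    tendsto_const_nhds.add ((hres.sqrt).const_mul C')
  have hfin := le_of_tendsto_of_tendsto lim1 lim2 hev
  rw [Real.sqrt_zero, mul_zero, add_zero] at hfin
  exact hfin

end Pool.Agent.Helper95.PW
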