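import Pool.Agent.Helper95.PW.Stmts

set_option autoImplicit false

namespace Pool.Agent.Helper95.PW

open MeasureTheory Filter

theorem com_nr_meas : Measurable nr := by
  unfold nr
  have : Continuous fun y : R3 => Real.sqrt (y 0 ^ 2 + y 1 ^ 2 + y 2 ^ 2) := by fun_prop
  exact this.measurable

theorem com_nr_nonneg (y : R3) : 0 ≤ nr y := Real.sqrt_nonneg _

theorem com_att_meas (n : ℕ) : Measurable (att : Cf n → ℝ) := by
  unfold att
  apply Finset.measurable_fun_sum
  intro k _
  exact (com_nr_meas.comp (measurable_pi_apply k)).const_div 1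

theorem com_rep_meas (n : ℕ) : Measurable (rep : Cf n → ℝ) := by
  unfold rep
  apply Finset.measurable_fun_sum
  intro k _
  apply Finset.measurable_fun_sum
  intro l _
  by_cases h : k < l
  · simp only [h, if_true]
    exact (com_nr_meas.comp ((measurable_pi_apply k).sub (measurable_pi_apply l))).const_div 1
  · simp only [h, if_false]
    exact measurable_const

theorem com_dv_smooth {n : ℕ} (k : Fin n) (i : Fin 3) (v : Cf n → ℝ)
    (hv : ContDiff ℝ (⊤ : ℕ∞) v) : ContDiff ℝ (⊤ : ℕ∞) (dv k i v) := by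
  have h := (contDiff_infty_iff_fderiv.1 hv).2
  exact h.clm_apply contDiff_const

theorem com_dv_cs {n : ℕ} (k : Fin n) (i : Fin 3) (v : Cf n → ℝ)
    (hv : HasCompactSupport v) : HasCompactSupport (dv k i v) :=
  (hv.fderiv (𝕜 := ℝ)).comp_left (g := fun L : Cf n →L[ℝ] ℝ =>
    L (Pi.single k (Pi.single i 1))) rfl

theorem com_memLp {n : ℕ} (v : Cf n → ℝ) (hv : ContDiff ℝ (⊤ : ℕ∞) v)
    (hc : HasCompactSupport v) : MemLp v 2 volume :=
  hv.continuous.memLp_of_hasCompactSupport hc

theorem com_hm_memLp (hI : ST_INT) {n : ℕ} (Z : ℝ) (v : Cf n → ℝ)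
    (hv : ContDiff ℝ (⊤ : ℕ∞) v) (hc : HasCompactSupport v) : MemLp (hm Z v) 2 volume := by
  obtain ⟨_, _, i3, i4⟩ := hI n v v hv hc hv hc
  have a3 : MemLp (fun x : Cf n => att x * v x) 2 volume :=
    (memLp_two_iff_integrable_sq
      ((com_att_meas n).mul hv.continuous.measurable).aestronglyMeasurable).2 i3
  have a4 : MemLp (fun x : Cf n => rep x * v x) 2 volume :=
    (memLp_two_iff_integrable_sq
      ((com_rep_meas n).mul hv.continuous.measurable).aestronglyMeasurable).2 i4
  have a5 : MemLp (fun x : Cf n => ∑ k, ∑ i, dv k i (dv k i v) x) 2 volume := by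
    apply memLp_finsetSum
    intro k _
    apply memLp_finsetSum
    intro i _
    exact com_memLp _ (com_dv_smooth k i _ (com_dv_smooth k i v hv))
      (com_dv_cs k i _ (com_dv_cs k i v hc))
  have e : hm Z v = fun x : Cf n => -(∑ k, ∑ i, dv k i (dv k i v) x) +
      (rep x * v x - Z * (att x * v x)) := by
    funext x
    unfold hm
    ring
  rw [e]
  exact a5.neg.add (a4.sub (a3.const_mul Z))

/-- the upper bound for the form by the residuum -/
theorem com_Q_le (hQ : ST_QH) (hI : ST_INT) {n : ℕ} (Z E : ℝ) (u : Wf n) (hu : Sm u) :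
    Q Z u ≤ E * sq u + sq u / 4 + res Z E u := by
  obtain ⟨h1, h2⟩ := hQ n Z u u hu hu
  rw [h2, h1]
  unfold res sq
  rw [Finset.mul_sum, Finset.sum_div, ← Finset.sum_add_distrib, ← Finset.sum_add_distrib]
  apply Finset.sum_le_sum
  intro s _
  have hu2 : MemLp (u s) 2 volume := com_memLp _ (hu s).1 (hu s).2
  have hh : MemLp (hm Z (u s)) 2 volume := com_hm_memLp hI Z _ (hu s).1 (hu s).2
  have hd : MemLp (fun x => hm Z (u s) x - E * u s x) 2 volume := hh.sub (hu2.const_mul E)
  have i1 : Integrable (fun x => u s x ^ 2) := hu2.integrable_sq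
  have i2 : Integrable (fun x => (hm Z (u s) x - E * u s x) ^ 2) := hd.integrable_sq
  have i3 : Integrable (fun x => u s x * hm Z (u s) x) := hu2.integrable_mul hh
  have e1 : ∫ x, (E * u s x ^ 2 + u s x ^ 2 / 4 + (hm Z (u s) x - E * u s x) ^ 2) =
      E * (∫ x, u s x ^ 2) + (∫ x, u s x ^ 2) / 4 + ∫ x, (hm Z (u s) x - E * u s x) ^ 2 := by
    rw [integral_add, integral_add, integral_const_mul, integral_div]
    · exact i1.const_mul E
    · exact i1.div_const 4
    · exact (i1.const_mul E).add (i1.div_const 4)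
    · exact i2
  rw [← e1]
  apply integral_mono i3 (((i1.const_mul E).add (i1.div_const 4)).add i2)
  intro x
  show u s x * hm Z (u s) x ≤ E * u s x ^ 2 + u s x ^ 2 / 4 + (hm Z (u s) x - E * u s x) ^ 2
  nlinarith [sq_nonneg (u s x / 2 - (hm Z (u s) x - E * u s x))]

theorem com_sq_nonneg {n : ℕ} (u : Wf n) : 0 ≤ sq u :=
  Finset.sum_nonneg fun s _ => integral_nonneg fun x => sq_nonneg _

theorem com_res_nonneg {n : ℕ} (Z E : ℝ) (u : Wf n) : 0 ≤ res Z E u := com_sq_nonneg _

theorem com_kin_nonneg {n : ℕ} (u : Wf n) : 0 ≤ kin u :=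
  Finset.sum_nonneg fun k _ => Finset.sum_nonneg fun i _ => com_sq_nonneg _

theorem com_dd_nonneg {n : ℕ} (u : Wf n) : 0 ≤ dd u :=
  Finset.sum_nonneg fun k _ => Finset.sum_nonneg fun i _ => Finset.sum_nonneg fun l _ =>
    Finset.sum_nonneg fun m _ => com_sq_nonneg _

theorem com_one_nonneg {n : ℕ} (w : R3 → ℝ) (hw : ∀ y, 0 ≤ w y) (u : Wf n) : 0 ≤ one w u :=
  Finset.sum_nonneg fun s _ => integral_nonneg fun x =>
    mul_nonneg (Finset.sum_nonneg fun k _ => hw _) (sq_nonneg _)

theorem com_pair_nonneg {n : ℕ} (u : Wf n) : 0 ≤ pair u := by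
  apply Finset.sum_nonneg
  intro s _
  apply integral_nonneg
  intro x
  apply mul_nonneg _ (sq_nonneg _)
  unfold rep
  apply Finset.sum_nonneg
  intro k _
  apply Finset.sum_nonneg
  intro l _
  by_cases h : k < l
  · simp only [h, if_true]
    exact div_nonneg zero_le_one (com_nr_nonneg _)
  · simp only [h, if_false]
    exact le_rfl

theorem com_ball_nonneg (R : ℝ) (y : R3) : 0 ≤ ball R y :=
  Set.indicator_nonneg (fun _ _ => zero_le_one) y

theorem com_Q_le_one (hQ : ST_QH) (hI : ST_INT) {n : ℕ} (Z E : ℝ) (u : Wf n) (hu : Sm u)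
    (hE : E ≤ 0) (h1 : sq u ≤ 2) (h2 : res Z E u ≤ 1 / 2) : Q Z u ≤ 1 := by
  have h := com_Q_le hQ hI Z E u hu
  have h3 : E * sq u ≤ 0 := mul_nonpos_of_nonpos_of_nonneg hE (com_sq_nonneg u)
  linarith

end Pool.Agent.Helper95.PW
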